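import Mathlib
import Pool.Agent.Helper97.Resid.Defs
import Pool.Agent.Helper97.Resid.Main

/-!
# Von Neumann algebras whose unitaries are residual in the unit ball
-/

open Pool.Agent.Helper97.Resid

universe u

namespace Pool.Agent.Results.MP_de1b00_an.Characterization

/-- The unitaries of a von Neumann algebra `M` are residual in its closed unit ball, for the
weak-star topology, if and only if `M` is sigma-finite and has no nonzero finite-dimensional
direct summand. -/
theorem result {H : Type u} [NormedAddCommGroup H] [InnerProductSpace ℂ H] [CompleteSpace H]
    (M : VonNeumannAlgebra H) : PropertyR M ↔ SigmaFinite M ∧ NoFiniteSummand M :=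
  propertyR_iff M

end Pool.Agent.Results.MP_de1b00_an.Characterization
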